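import Pool.Agent.Helper77.OF4.St

/-!
# Project OF4, module FJ: faces visit vertices once
-/

set_option autoImplicit false

namespace Pool.Agent.Helper78.OF4.FJ

open Equiv Equiv.Perm Pool.Agent.Helper35.PM Pool.Agent.Helper77.HY Pool.Agent.Helper77.OF4

theorem main (hCutV : Pool.Agent.Helper35.PM.StCutV) : StFj := by
  intro V D _ M hOG hUF d d' hsc ht
  by_contra hne
  obtain ⟨c, hι, hr, hcd⟩ := hCutV V D M d d' hne ht hsc
  obtain ⟨hloop, htri⟩ := hOG
  -- `c` is constant around the vertices different from `t d`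
  have hcon : ∀ e e' : D, M.t e = M.t e' → M.t e ≠ M.t d → c e = c e' := by
    intro e e' h1 h2
    obtain ⟨n, hn⟩ := (M.trans e e' h1).exists_nat_pow_eq
    have h3 : ∀ n : ℕ, c ((M.r ^ n) e) = c e := by
      intro n
      induction n with
      | zero => simp
      | succ n ih =>
        rw [pow_succ', Perm.mul_apply, hr _ (by rw [M.t_pow]; exact h2), ih]
    rw [← hn, h3]
  -- a jump
  have hjump : ∃ e, M.t e = M.t d ∧ c (M.r e) ≠ c e := by
    by_contra hno
    push Not at hno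
    obtain ⟨n, hn⟩ := (M.trans d d' ht).exists_nat_pow_eq
    have h3 : ∀ n : ℕ, c ((M.r ^ n) d) = c d := by
      intro n
      induction n with
      | zero => simp
      | succ n ih =>
        rw [pow_succ', Perm.mul_apply, hno _ (M.t_pow d n), ih]
    apply hcd
    rw [← hn, h3]
  obtain ⟨e, hte, hce⟩ := hjump
  have htre : M.t (M.r e) = M.t d := by rw [M.t_r, hte]
  have hw : M.t (M.ι e) ≠ M.t d := by
    rw [← hte]; exact hloop e
  have hw' : M.t (M.ι (M.r e)) ≠ M.t d := by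
    rw [← htre]; exact hloop (M.r e)
  have hφ1 : M.φ (M.ι e) = M.r e := by rw [PMap.φ_apply, M.inv]
  have hφ2 : M.t (M.φ (M.φ (M.ι e))) = M.t (M.ι (M.r e)) := by rw [hφ1, t_φ]
  have hww : M.t (M.ι e) ≠ M.t (M.φ (M.φ (M.ι e))) := by
    rw [hφ2]
    intro h
    apply hce
    have h1 := hcon _ _ h hw
    rw [hι, hι] at h1
    exact h1.symm
  obtain ⟨w, hw0, hw3, hstep⟩ := hUF (M.ι e) hww
  obtain ⟨f0, hf0, hf0'⟩ := hstep 0 (by norm_num)
  obtain ⟨f1, hf1, hf1'⟩ := hstep 1 (by norm_num)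
  obtain ⟨f2, hf2, hf2'⟩ := hstep 2 (by norm_num)
  norm_num at hf0' hf1' hf2'
  rw [hφ2] at hw3
  by_cases h1 : w 1 = M.t d
  · apply htri f1 f2 (M.ι (M.r e)) (by rw [hf1', hf2]) (by rw [hf2', hw3])
    rw [M.inv, htre, hf1, h1]
  · by_cases h2 : w 2 = M.t d
    · apply htri f0 f1 e (by rw [hf0', hf1]) (by rw [hf1', h2, hte])
      rw [hf0, hw0]
    · apply hce
      have e1 : c (M.ι e) = c f0 := hcon _ _ (by rw [hf0, hw0]) hw
      have e2 : c (M.ι f0) = c f1 := hcon _ _ (by rw [hf0', hf1]) (by rw [hf0']; exact h1)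
      have e3 : c (M.ι f1) = c f2 := hcon _ _ (by rw [hf1', hf2]) (by rw [hf1']; exact h2)
      have e4 : c (M.ι f2) = c (M.ι (M.r e)) := hcon _ _ (by rw [hf2', hw3])
        (by rw [hf2', hw3]; exact hw')
      rw [hι] at e1 e2 e3 e4
      rw [hι] at e4
      rw [← e4, ← e3, ← e2, ← e1]

end Pool.Agent.Helper78.OF4.FJ
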